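import Pool.Agent.R571.TO.Cut

/-!
# A tent map whose turning point is regularly and persistently recurrent and whose postcritical
# dynamics is a minimal homeomorphism which is not an odometer
-/

namespace Pool.Agent.Results.MP_34a220_an.TentMapNonOdometer

open Set Filter Topology

/-- `f : [0,1] → [0,1]` is unimodal with turning point `c ∈ (0,1)`. -/
structure Unimodal (f : ℝ → ℝ) (c : ℝ) : Prop where
  continuousOn : ContinuousOn f (Icc 0 1)
  mapsTo : MapsTo f (Icc 0 1) (Icc 0 1)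
  turning : c ∈ Ioo (0 : ℝ) 1
  increasing : StrictMonoOn f (Icc 0 c)
  decreasing : StrictAntiOn f (Icc c 1)

/-- The omega-limit set `ω(c) = ⋂_N closure {f^n(c) : n ≥ N}`. -/
def omega (f : ℝ → ℝ) (c : ℝ) : Set ℝ := ⋂ N : ℕ, closure {y | ∃ n : ℕ, N ≤ n ∧ y = f^[n] c}

/-- `c` is infinitely recurrent: recurrent but not periodic. -/
def InfinitelyRecurrent (f : ℝ → ℝ) (c : ℝ) : Prop :=
  c ∈ omega f c ∧ ∀ n : ℕ, 1 ≤ n → f^[n] c ≠ c

/-- `c` is regularly recurrent: for every neighbourhood `U` of `c` there is `N ≥ 1` with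
`f^{kN}(c) ∈ U` for all `k ≥ 0`. -/
def RegularlyRecurrent (f : ℝ → ℝ) (c : ℝ) : Prop :=
  ∀ U ∈ 𝓝 c, ∃ N : ℕ, 1 ≤ N ∧ ∀ k : ℕ, f^[k * N] c ∈ U

/-- The odometer `lim ℤ/m_i` for `m_1 ∣ m_2 ∣ ⋯` (with the subspace topology of the product of the
discrete spaces `ℤ/m_i`). -/
def Odometer (m : ℕ → ℕ) (hm : ∀ i, m i ∣ m (i + 1)) : Type :=
  {x : ∀ i, ZMod (m i) // ∀ i, ZMod.castHom (hm i) (ZMod (m i)) (x (i + 1)) = x i}

instance (m : ℕ → ℕ) (hm : ∀ i, m i ∣ m (i + 1)) : TopologicalSpace (Odometer m hm) :=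
  inferInstanceAs (TopologicalSpace {x : ∀ i, ZMod (m i) //
    ∀ i, ZMod.castHom (hm i) (ZMod (m i)) (x (i + 1)) = x i})

/-- The map `x ↦ x + 1` of the odometer. -/
def addOne {m : ℕ → ℕ} {hm : ∀ i, m i ∣ m (i + 1)} (x : Odometer m hm) : Odometer m hm :=
  ⟨fun i => x.1 i + 1, fun i => by rw [map_add, x.2 i, map_one]⟩

/-- The self map `g` of `X` is topologically conjugate to some odometer. -/
def ConjugateToOdometer {X : Type*} [TopologicalSpace X] (g : X → X) : Prop :=
  ∃ (m : ℕ → ℕ) (hm : ∀ i, m i ∣ m (i + 1)), (∀ i, 0 < m i) ∧ Tendsto m atTop atTop ∧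
    ∃ φ : X ≃ₜ Odometer m hm, ∀ x, φ (g x) = addOne (φ x)

/-- One-sided neighbourhoods of `y` in `[0,1]`: intervals with end point `y`. -/
def OneSidedNhd (y : ℝ) (U : Set ℝ) : Prop :=
  U ⊆ Icc 0 1 ∧ U.OrdConnected ∧
    ((∃ b, y < b ∧ Ioo y b ⊆ U ∧ U ⊆ Ici y) ∨ (∃ b, b < y ∧ Ioo b y ⊆ U ∧ U ⊆ Iic y))

/-- `G 0, …, G s = U` is a monotone pullback chain with `c ∈ ∂ G 0`: each `G i` (`i < s`) is a
connected component of `f⁻¹(G (i+1))` (in `[0,1]`) which does not contain `c`. -/
def MonotoneChain (f : ℝ → ℝ) (c : ℝ) (U : Set ℝ) (s : ℕ) (G : ℕ → Set ℝ) : Prop :=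
  G s = U ∧ (∀ i < s, ∃ x ∈ Icc 0 1 ∩ f ⁻¹' G (i + 1),
    G i = connectedComponentIn (Icc 0 1 ∩ f ⁻¹' G (i + 1)) x) ∧ (∀ i < s, c ∉ G i) ∧
    c ∈ frontier (G 0)

/-- Persistent recurrence, exactly as in the problem file. -/
def PersistentlyRecurrent (f : ℝ → ℝ) (c : ℝ) : Prop :=
  c ∈ omega f c ∧ ∀ y ∈ omega f c, ∀ U : Set ℝ, OneSidedNhd y U →
    {s : ℕ | ∃ G : ℕ → Set ℝ, MonotoneChain f c U s G}.Finite

/-- Persistent recurrence in the usual (Blokh–Lyubich) form: for each `ε > 0` there are only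
finitely many `n` such that the `ε`-neighbourhood (in `[0,1]`) of `c_{n+1} = f^n(c_1)` has a monotone
pull back along `c_1, …, c_{n+1}`, i.e. is covered by `f^n(J)` for an interval `J ∋ c_1` on which
`f^n` is injective. -/
def StronglyPersistent (f : ℝ → ℝ) (c : ℝ) : Prop :=
  c ∈ omega f c ∧ ∀ ε : ℝ, 0 < ε → {n : ℕ | ∃ J : Set ℝ, J.OrdConnected ∧ J ⊆ Icc 0 1 ∧
    f c ∈ J ∧ InjOn f^[n] J ∧
    Icc 0 1 ∩ Ioo (f^[n + 1] c - ε) (f^[n + 1] c + ε) ⊆ f^[n] '' J}.Finite

open Classical in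
/-- The kneading sequence: `ν_n = 1` if `c_n > c` and `0` otherwise. -/
noncomputable def kneading (f : ℝ → ℝ) (c : ℝ) (n : ℕ) : ℕ := if c < f^[n] c then 1 else 0

/-- `S` is the sequence of cutting times and `Q` the kneading map: `S_0 = 1`,
`S_{k+1} = min {n > S_k : ν_n ≠ ν_{n - S_k}}`, `S_k - S_{k-1} = S_{Q(k)}`. -/
def CuttingTimes (f : ℝ → ℝ) (c : ℝ) (S Q : ℕ → ℕ) : Prop :=
  S 0 = 1 ∧ (∀ k, IsLeast {n | S k < n ∧ kneading f c n ≠ kneading f c (n - S k)} (S (k + 1))) ∧
    ∀ k, 1 ≤ k → S k - S (k - 1) = S (Q k)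

open Pool.Agent.R571.TO

lemma tent_unimodal {s : ℝ} (K : Kn s) : Unimodal (tent s) (1 / 2) := by
  have hs : 0 < s := by linarith [K.one_lt]
  refine ⟨(tent_cont s).continuousOn, tent_maps K.pos K.h2, ⟨by norm_num, by norm_num⟩, ?_, ?_⟩
  · intro x hx y hy hxy
    rw [tent_low hx.2, tent_low hy.2]
    exact mul_lt_mul_of_pos_left hxy hs
  · intro x hx y hy hxy
    rw [tent_high hx.1, tent_high hy.1]
    exact mul_lt_mul_of_pos_left (by linarith) hs

lemma regular {s : ℝ} (K : Kn s) : RegularlyRecurrent (tent s) (1 / 2) := by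
  intro U hU
  obtain ⟨ε, hε, hb⟩ := Metric.mem_nhds_iff.1 hU
  obtain ⟨m, hm⟩ := K.exists_small hε
  refine ⟨10 ^ (m + 1), Nat.one_le_pow _ _ (by norm_num), fun k => hb ?_⟩
  rw [Metric.mem_ball, Real.dist_eq]
  rcases Nat.eq_zero_or_pos k with rfl | hk
  · simpa using hε
  · exact (K.near' (Nat.mul_pos hk (by positivity)) (K.inZ_ten m k)).trans_lt (hm m le_rfl)

section

variable {s : ℝ} (K : Kn s)
include K

lemma omega_maps : MapsTo (tent s) (omega (tent s) (1 / 2)) (omega (tent s) (1 / 2)) := by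
  intro z hz
  refine mem_iInter.2 fun N => ?_
  have h1 := image_closure_subset_closure_image (tent_cont s)
    (mem_image_of_mem (tent s) (mem_iInter.1 hz N))
  refine closure_mono ?_ h1
  rintro _ ⟨z, ⟨n, hn, rfl⟩, rfl⟩
  exact ⟨n + 1, by omega, by rw [Function.iterate_succ_apply']⟩

lemma isClosed_omega : IsClosed (omega (tent s) (1 / 2)) :=
  isClosed_iInter fun _ => isClosed_closure

lemma omega_sub : omega (tent s) (1 / 2) ⊆ Icc 0 1 := by
  intro z hz
  refine closure_minimal ?_ isClosed_Icc (mem_iInter.1 hz 0)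
  rintro _ ⟨n, -, rfl⟩
  exact K.orb_mem n

lemma isCompact_omega : IsCompact (omega (tent s) (1 / 2)) :=
  isCompact_Icc.of_isClosed_subset (isClosed_omega K) (omega_sub K)

/-- the orbit closure of any point of `ω(c)` contains `ω(c)` -/
lemma omega_sub_tail {y : ℝ} (hy : y ∈ omega (tent s) (1 / 2)) :
    omega (tent s) (1 / 2) ⊆ closure (range fun n : ℕ => (tent s)^[n] y) := by
  have key : ∀ m, (tent s)^[m] (1 / 2) ∈ closure (range fun n : ℕ => (tent s)^[n] y) := by
    intro m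
    induction m with
    | zero =>
      rw [Function.iterate_zero, id, Metric.mem_closure_iff]
      intro ε hε
      obtain ⟨n, -, hn2⟩ := K.recur hy 0 hε
      refine ⟨_, ⟨n, rfl⟩, ?_⟩
      rwa [dist_comm, Real.dist_eq]
    | succ m ih =>
      rw [Function.iterate_succ_apply']
      have h1 := image_closure_subset_closure_image (tent_cont s)
        (mem_image_of_mem (tent s) ih)
      refine closure_mono ?_ h1
      rintro _ ⟨z, ⟨n, rfl⟩, rfl⟩
      exact ⟨n + 1, by simp only [Function.iterate_succ_apply']⟩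
  intro z hz
  refine closure_minimal ?_ isClosed_closure (mem_iInter.1 hz 0)
  rintro _ ⟨m, -, rfl⟩
  exact key m

lemma surjOn : SurjOn (tent s) (omega (tent s) (1 / 2)) (omega (tent s) (1 / 2)) := by
  have hcl : IsClosed (tent s '' omega (tent s) (1 / 2)) :=
    ((isCompact_omega K).image (tent_cont s)).isClosed
  intro z hz
  refine closure_minimal ?_ hcl (mem_iInter.1 hz 1)
  rintro _ ⟨n, hn, rfl⟩
  obtain ⟨m, rfl⟩ : ∃ m, n = m + 1 := ⟨n - 1, by omega⟩
  refine ⟨(tent s)^[m] (1 / 2), (omega_maps K).iterate m K.c_mem, ?_⟩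
  rw [Function.iterate_succ_apply']

/-- the restriction as a homeomorphism -/
lemma exists_homeo : ∃ g : omega (tent s) (1 / 2) ≃ₜ omega (tent s) (1 / 2),
    ∀ x, (g x : ℝ) = tent s x := by
  have : CompactSpace (omega (tent s) (1 / 2)) := isCompact_iff_compactSpace.1 (isCompact_omega K)
  let e : omega (tent s) (1 / 2) ≃ omega (tent s) (1 / 2) :=
    (BijOn.mk (omega_maps K) K.injOn (surjOn K)).equiv (tent s)
  have he : Continuous e := by
    refine Continuous.subtype_mk ((tent_cont s).comp continuous_subtype_val) _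
  exact ⟨he.homeoOfEquivCompactToT2, fun x => rfl⟩

lemma iter_coe {g : omega (tent s) (1 / 2) ≃ₜ omega (tent s) (1 / 2)}
    (hg : ∀ x, (g x : ℝ) = tent s x) (n : ℕ) (x : omega (tent s) (1 / 2)) :
    ((g^[n] x : omega (tent s) (1 / 2)) : ℝ) = (tent s)^[n] x := by
  induction n with
  | zero => rfl
  | succ n ih => rw [Function.iterate_succ_apply', Function.iterate_succ_apply', hg, ih]

lemma not_odometer {g : omega (tent s) (1 / 2) ≃ₜ omega (tent s) (1 / 2)}
    (hg : ∀ x, (g x : ℝ) = tent s x) : ¬ ConjugateToOdometer g := by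
  rintro ⟨m, hm, -, -, φ, hφ⟩
  obtain ⟨y, hy, y', hy', hne, hprox⟩ := K.proximal
  have hiter : ∀ (n : ℕ) (x : omega (tent s) (1 / 2)) (i : ℕ),
      (φ (g^[n] x)).1 i = (φ x).1 i + n := by
    intro n x i
    induction n with
    | zero => simp
    | succ n ih =>
      rw [Function.iterate_succ_apply', hφ]
      show (φ (g^[n] x)).1 i + 1 = _
      rw [ih]; push_cast; ring
  -- limits of the two orbits along `t_M`
  have hlim : ∀ w ∈ omega (tent s) (1 / 2), (∀ M, |(tent s)^[10 ^ M - sv M] w - 1 / 2| ≤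
      1 / s ^ (10 ^ M)) → ∀ hw : w ∈ omega (tent s) (1 / 2),
      Tendsto (fun M => g^[10 ^ M - sv M] ⟨w, hw⟩) atTop (𝓝 ⟨1 / 2, K.c_mem⟩) := by
    intro w _ h hw
    rw [tendsto_subtype_rng]
    rw [Metric.tendsto_atTop]
    intro ε hε
    obtain ⟨M₀, hM₀⟩ := K.exists_small hε
    refine ⟨M₀, fun M hM => ?_⟩
    rw [Real.dist_eq, iter_coe K hg]
    exact (h M).trans_lt (hM₀ M hM)
  have h1 := hlim y hy (fun M => (hprox M).1) hy
  have h2 := hlim y' hy' (fun M => (hprox M).2) hy'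
  apply hne
  have heq : φ ⟨y, hy⟩ = φ ⟨y', hy'⟩ := by
    apply Subtype.ext
    funext i
    have hc : Continuous fun x : omega (tent s) (1 / 2) => (φ x).1 i :=
      (continuous_apply i).comp (continuous_subtype_val.comp φ.continuous)
    have h3 := (hc.tendsto ⟨1 / 2, K.c_mem⟩).comp h1
    have h4 := (hc.tendsto ⟨1 / 2, K.c_mem⟩).comp h2
    have hdisc : ∀ᶠ z in 𝓝 ((φ ⟨1 / 2, K.c_mem⟩).1 i), z = (φ ⟨1 / 2, K.c_mem⟩).1 i := by
      rw [nhds_discrete]
      simp
    obtain ⟨M, hM1, hM2⟩ := ((h3.eventually hdisc).and (h4.eventually hdisc)).exists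
    simp only [Function.comp_apply, hiter] at hM1 hM2
    rw [← hM2] at hM1
    exact add_right_cancel hM1
  have := φ.injective heq
  exact congrArg Subtype.val this

/-- the points of the critical orbit are pairwise different -/
lemma orbit_inj : Function.Injective fun n : ℕ => (tent s)^[n] (1 / 2) := by
  have key : ∀ a b : ℕ, a < b → (tent s)^[a] (1 / 2) = (tent s)^[b] (1 / 2) → False := by
    intro a b hab h
    -- the orbit is eventually periodic, so finite
    have hper : ∀ n, a ≤ n → ∃ k, k < b ∧ a ≤ k ∧ (tent s)^[n] (1 / 2) = (tent s)^[k] (1 / 2) := by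
      intro n hn
      induction n, hn using Nat.le_induction with
      | base => exact ⟨a, hab, le_rfl, rfl⟩
      | succ n hn ih =>
        obtain ⟨k, hk1, hk2, hk3⟩ := ih
        rcases Nat.lt_or_ge (k + 1) b with h1 | h1
        · exact ⟨k + 1, h1, by omega, by
            rw [Function.iterate_succ_apply', Function.iterate_succ_apply', hk3]⟩
        · refine ⟨a, hab, le_rfl, ?_⟩
          have : k + 1 = b := by omega
          rw [h, ← this, Function.iterate_succ_apply', Function.iterate_succ_apply', hk3]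
    have hfar : ∃ η : ℝ, 0 < η ∧ ∀ k, 1 ≤ k → k < b → η ≤ |(tent s)^[k] (1 / 2) - 1 / 2| := by
      clear hper h hab
      induction b with
      | zero => exact ⟨1, one_pos, fun k _ h => by omega⟩
      | succ b ih =>
        obtain ⟨η, h1, h2⟩ := ih
        rcases Nat.eq_zero_or_pos b with rfl | hb
        · exact ⟨1, one_pos, fun k h3 h4 => by omega⟩
        · refine ⟨min η |(tent s)^[b] (1 / 2) - 1 / 2|,
            lt_min h1 (abs_pos.2 (sub_ne_zero.2 (K.ne b hb))), fun k h3 h4 => ?_⟩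
          rcases Nat.lt_or_ge k b with h5 | h5
          · exact (min_le_left _ _).trans (h2 k h3 h5)
          · obtain rfl : k = b := by omega
            exact min_le_right _ _
    obtain ⟨η, hη, hfar⟩ := hfar
    obtain ⟨n, hn, hnn⟩ := mem_omega.1 K.c_mem (a + 1) η hη
    obtain ⟨k, hk1, hk2, hk3⟩ := hper n (by omega)
    rcases Nat.eq_zero_or_pos k with rfl | hk
    · rw [Function.iterate_zero, id] at hk3
      exact K.ne n (by omega) hk3
    · have := hfar k hk hk1
      rw [← hk3] at this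
      linarith
  intro a b h
  rcases lt_trichotomy a b with h1 | h1 | h1
  · exact (key a b h1 h).elim
  · exact h1
  · exact (key b a h1 h.symm).elim

lemma chain_point {U : Set ℝ} {t : ℕ} {G : ℕ → Set ℝ} (h : MonotoneChain (tent s) (1 / 2) U t G)
    (ht : 1 ≤ t) : ∀ i, i ≤ t → (tent s)^[i] (1 / 2) ∈ closure (G i) \ G i := by
  obtain ⟨-, h2, h3, h4⟩ := h
  intro i
  induction i with
  | zero =>
    intro _
    exact ⟨frontier_subset_closure h4, h3 0 (by omega)⟩
  | succ i ih =>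
    intro hi
    obtain ⟨h5, h6⟩ := ih (by omega)
    obtain ⟨x, hx, hGi⟩ := h2 i (by omega)
    have hsub : G i ⊆ Icc 0 1 ∩ tent s ⁻¹' G (i + 1) := by
      rw [hGi]; exact connectedComponentIn_subset _ _
    have hxG : x ∈ G i := by rw [hGi]; exact mem_connectedComponentIn hx
    have hpre : IsPreconnected (G i) := by rw [hGi]; exact isPreconnected_connectedComponentIn
    constructor
    · rw [Function.iterate_succ_apply']
      have h7 := image_closure_subset_closure_image (tent_cont s)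
        (mem_image_of_mem (tent s) h5)
      refine closure_mono ?_ h7
      rintro _ ⟨z, hz, rfl⟩
      exact (hsub hz).2
    · intro h8
      apply h6
      rw [Function.iterate_succ_apply'] at h8
      have h9 : insert ((tent s)^[i] (1 / 2)) (G i) ⊆ Icc 0 1 ∩ tent s ⁻¹' G (i + 1) := by
        intro z hz
        rcases mem_insert_iff.1 hz with rfl | hz
        · exact ⟨K.orb_mem i, h8⟩
        · exact hsub hz
      have h10 : IsPreconnected (insert ((tent s)^[i] (1 / 2)) (G i)) :=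
        hpre.subset_closure (subset_insert _ _) (by
          intro z hz
          rcases mem_insert_iff.1 hz with rfl | hz
          · exact h5
          · exact subset_closure hz)
      have h11 := h10.subset_connectedComponentIn (mem_insert_of_mem _ hxG) h9
      rw [hGi]
      exact h11 (mem_insert _ _)

omit K in
lemma boundary_finite {U : Set ℝ} (hU : U.OrdConnected) : (closure U \ U).Finite := by
  have hsub : ∀ a ∈ closure U \ U, (∀ u ∈ U, a < u) ∨ (∀ u ∈ U, u < a) := by
    intro a ha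
    by_contra hcon
    push Not at hcon
    obtain ⟨⟨u, hu, hua⟩, ⟨v, hv, hva⟩⟩ := hcon
    exact ha.2 (hU.out hu hv ⟨hua, hva⟩)
  have huniq1 : ∀ a ∈ closure U \ U, ∀ b ∈ closure U \ U, (∀ u ∈ U, a < u) → (∀ u ∈ U, b < u) →
      a = b := by
    have aux : ∀ a ∈ closure U \ U, ∀ b ∈ closure U \ U, (∀ u ∈ U, b < u) → ¬ a < b := by
      intro a ha b hb hb' hab
      obtain ⟨u, hu, huU⟩ := mem_closure_iff.1 ha.1 (Iio b) isOpen_Iio hab
      exact absurd (hb' u huU) (not_lt.2 (le_of_lt hu))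
    intro a ha b hb ha' hb'
    exact le_antisymm (not_lt.1 (aux b hb a ha ha')) (not_lt.1 (aux a ha b hb hb'))
  have huniq2 : ∀ a ∈ closure U \ U, ∀ b ∈ closure U \ U, (∀ u ∈ U, u < a) → (∀ u ∈ U, u < b) →
      a = b := by
    have aux : ∀ a ∈ closure U \ U, ∀ b ∈ closure U \ U, (∀ u ∈ U, u < b) → ¬ b < a := by
      intro a ha b hb hb' hab
      obtain ⟨u, hu, huU⟩ := mem_closure_iff.1 ha.1 (Ioi b) isOpen_Ioi hab
      exact absurd (hb' u huU) (not_lt.2 (le_of_lt hu))
    intro a ha b hb ha' hb'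
    exact le_antisymm (not_lt.1 (aux a ha b hb hb')) (not_lt.1 (aux b hb a ha ha'))
  have h1 : {a | a ∈ closure U \ U ∧ ∀ u ∈ U, a < u}.Subsingleton :=
    fun a ha b hb => huniq1 a ha.1 b hb.1 ha.2 hb.2
  have h2 : {a | a ∈ closure U \ U ∧ ∀ u ∈ U, u < a}.Subsingleton :=
    fun a ha b hb => huniq2 a ha.1 b hb.1 ha.2 hb.2
  refine (h1.finite.union h2.finite).subset ?_
  intro a ha
  rcases hsub a ha with h | h
  · exact Or.inl ⟨ha, h⟩
  · exact Or.inr ⟨ha, h⟩

lemma persistently : PersistentlyRecurrent (tent s) (1 / 2) := by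
  refine ⟨K.c_mem, fun y _ U hU => ?_⟩
  have hfin : ((fun n : ℕ => (tent s)^[n] (1 / 2)) ⁻¹' (closure U \ U)).Finite :=
    (boundary_finite hU.2.1).preimage (orbit_inj K).injOn
  refine (hfin.union (finite_singleton 0)).subset ?_
  rintro t ⟨G, hG⟩
  rcases Nat.eq_zero_or_pos t with rfl | ht
  · exact Or.inr rfl
  · left
    have := chain_point K hG ht t le_rfl
    rw [hG.1] at this
    exact this

lemma kneading_eq (n : ℕ) (hn : 1 ≤ n) :
    kneading (tent s) (1 / 2) n = if W 0 n = true then 1 else 0 := by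
  unfold kneading
  have h := (K.h n hn).1
  by_cases hW : W 0 n = true
  · rw [if_pos hW, if_pos (h.1 hW)]
  · rw [if_neg hW, if_neg fun h' => hW (h.2 h')]

lemma cutting : CuttingTimes (tent s) (1 / 2) Sx Qx := by
  refine ⟨rfl, fun k => ?_, fun k hk => ?_⟩
  · have hR := Sx_R k
    have hS := Sx_pos k
    rw [Sx_succ]
    constructor
    · refine ⟨by have := hR.1; omega, ?_⟩
      rw [Nat.add_sub_cancel_left, kneading_eq K _ (by omega), kneading_eq K _ hR.1]
      have := hR.2.2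
      revert this
      cases W 0 (Sx k + Sx (Qx (k + 1))) <;> cases W 0 (Sx (Qx (k + 1))) <;> simp
    · rintro n ⟨hn1, hn2⟩
      by_contra hcon
      push Not at hcon
      apply hn2
      rw [kneading_eq K n (by omega), kneading_eq K (n - Sx k) (by omega)]
      have := hR.2.1 (n - Sx k) (by omega) (by omega)
      rw [show Sx k + (n - Sx k) = n by omega] at this
      rw [this]
  · obtain ⟨k, rfl⟩ : ∃ k', k = k' + 1 := ⟨k - 1, by omega⟩
    rw [Nat.add_sub_cancel, Sx_succ]
    omega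

end

/-- There is a tent map `f` of slope `s ∈ (√2, 2)` with turning point `c = 1/2` such that `c` is
regularly recurrent (and infinitely recurrent), `f : ω(c) → ω(c)` is a minimal homeomorphism which
is not conjugate to any odometer, and `c` is persistently recurrent, both in the sense of the
problem and in the usual stronger sense; moreover its kneading map tends to infinity. -/
theorem result : ∃ (s : ℝ) (f : ℝ → ℝ) (c : ℝ), √2 < s ∧ s < 2 ∧ (∀ x, f x = s * min x (1 - x)) ∧
    c = 1 / 2 ∧ Unimodal f c ∧ InfinitelyRecurrent f c ∧ RegularlyRecurrent f c ∧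
    (∃ g : omega f c ≃ₜ omega f c, (∀ x, (g x : ℝ) = f x) ∧
      (∀ x, Dense (range fun n : ℕ => g^[n] x)) ∧ ¬ ConjugateToOdometer g) ∧
    PersistentlyRecurrent f c ∧ StronglyPersistent f c ∧
    ∃ S Q : ℕ → ℕ, CuttingTimes f c S Q ∧ Tendsto Q atTop atTop := by
  obtain ⟨s, h1, h2, h3⟩ := exists_tent
  have K : Kn s := ⟨h1, h2, h3⟩
  refine ⟨s, tent s, 1 / 2, h1, K.s_lt, fun x => rfl, rfl, tent_unimodal K, ⟨K.c_mem, K.ne⟩,
    regular K, ?_, persistently K, ⟨K.c_mem, fun ε hε => K.persistent hε⟩, Sx, Qx, cutting K,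
    Qx_tendsto⟩
  obtain ⟨g, hg⟩ := exists_homeo K
  refine ⟨g, hg, fun x => ?_, not_odometer K hg⟩
  rw [dense_iff_closure_eq]
  refine eq_univ_of_forall fun z => ?_
  rw [Metric.mem_closure_iff]
  intro ε hε
  obtain ⟨_, ⟨n, rfl⟩, hn⟩ := Metric.mem_closure_iff.1 (omega_sub_tail K x.2 z.2) ε hε
  refine ⟨_, ⟨n, rfl⟩, ?_⟩
  rw [Subtype.dist_eq, iter_coe K hg]
  exact hn

end Pool.Agent.Results.MP_34a220_an.TentMapNonOdometer
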